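import Mathlib

/-!
# SQ, stage 7: the number of monomials
-/

set_option autoImplicit false

namespace Pool.Agent.SQ

open Module

open scoped Pointwise in
/-- the products of `m` elements of a space of dimension `n + 1` lie in a space of dimension at most `(m + 1) ^ n` -/
theorem finrank_pow_le5 {k K : Type*} [Field k] [Field K] [Algebra k K] (W : Submodule k K) [FiniteDimensional k W]
    {n : ℕ} (hn : finrank k W = n + 1) (m : ℕ) :
    FiniteDimensional k ↥(W ^ m) ∧ finrank k ↥(W ^ m) ≤ (m + 1) ^ n := by
  classical
  have b : Basis (Fin (n + 1)) k W := by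
    rw [← hn]
    exact Module.finBasis k W
  obtain ⟨y, hy⟩ : ∃ y : Fin (n + 1) → K, ∀ i, y i = b i := ⟨_, fun _ => rfl⟩
  have hW : W ≤ Submodule.span k (Set.range y) := by
    intro x hx
    have h3 := b.sum_repr ⟨x, hx⟩
    have h4 := congrArg (fun x : W => (x : K)) h3
    simp only [AddSubmonoidClass.coe_finsetSum, SetLike.val_smul] at h4
    rw [← h4]
    exact Submodule.sum_mem _ fun i _ => Submodule.smul_mem _ _ (Submodule.subset_span ⟨i, hy i⟩)
  have h1 : W ^ m ≤ Submodule.span k (Set.range fun e : Fin n → Fin (m + 1) =>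
      (∏ i, y (Fin.castSucc i) ^ (e i : ℕ)) * y (Fin.last n) ^ (m - ∑ i, (e i : ℕ))) := by
    refine (pow_le_pow_left' hW m).trans ?_
    rw [Submodule.span_pow]
    refine Submodule.span_le.2 fun a ha => Submodule.subset_span ?_
    rw [Set.mem_pow] at ha
    obtain ⟨f, rfl⟩ := ha
    rw [List.prod_ofFn]
    have hf : ∀ i, ∃ j, y j = (f i : K) := fun i => (f i).2
    choose j hj using hf
    have hc : ∀ t : Fin (n + 1), (Finset.univ.filter fun i => j i = t).card ≤ m := by
      intro t
      have := Finset.card_le_univ (Finset.univ.filter fun i => j i = t)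
      rwa [Fintype.card_fin] at this
    refine ⟨fun t => ⟨(Finset.univ.filter fun i => j i = Fin.castSucc t).card, by
      have := hc (Fin.castSucc t)
      omega⟩, ?_⟩
    have e1 : ∏ i, (f i : K) = ∏ t : Fin (n + 1), y t ^ (Finset.univ.filter fun i => j i = t).card := by
      rw [← Finset.prod_fiberwise Finset.univ j fun i => (f i : K)]
      refine Finset.prod_congr rfl fun t _ => ?_
      rw [← Finset.prod_const]
      refine Finset.prod_congr rfl fun i hi => ?_
      rw [← hj, (Finset.mem_filter.1 hi).2]
    have e2 : ∑ t : Fin (n + 1), (Finset.univ.filter fun i => j i = t).card = m := by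
      have := Finset.card_eq_sum_card_fiberwise (f := j) (s := Finset.univ) (t := Finset.univ)
        fun _ _ => Finset.mem_coe.2 (Finset.mem_univ _)
      rw [Finset.card_univ, Fintype.card_fin] at this
      exact this.symm
    rw [Fin.sum_univ_castSucc] at e2
    rw [e1, Fin.prod_univ_castSucc]
    show _ * y (Fin.last n) ^ (m - ∑ t : Fin n, (Finset.univ.filter fun i => j i = Fin.castSucc t).card) = _
    congr 2
    omega
  have h2 : FiniteDimensional k (Submodule.span k (Set.range fun e : Fin n → Fin (m + 1) =>
      (∏ i, y (Fin.castSucc i) ^ (e i : ℕ)) * y (Fin.last n) ^ (m - ∑ i, (e i : ℕ)))) :=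
    FiniteDimensional.span_of_finite k (Set.finite_range _)
  refine ⟨Submodule.finiteDimensional_of_le h1, ?_⟩
  refine (Submodule.finrank_mono h1).trans ((finrank_range_le_card _).trans ?_)
  simp

end Pool.Agent.SQ
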